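import Pool.Agent.H.MP_af65a2_co.Main

namespace Pool.Agent.Results.MP_af65a2_co.Formula

open Pool.Agent.H.MP_af65a2_co

theorem result (k : ℕ) (t : Fin k → ℕ) (ht : ∀ i, 3 ≤ t i) (hne : ∃ i j, t i ≠ t j)
    (n m : ℕ) (hn : n = ∑ i, t i)
    (hm : m = max ((Finset.univ.filter fun i => t i % 2 = 1).card +
      2 * (Finset.univ.filter fun i => t i % 4 = 2).card) 1) :
    m ≤ n ∧
    IsLeast {a | ∃ f, IsLab f ∧ hi (cycles t) f = a} (n + 1 + m) ∧
    IsGreatest {a | ∃ f, IsLab f ∧ lo (cycles t) f = a} (n + 1 - m) ∧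
    IsLeast {a | ∃ f, IsLab f ∧ hi (cycles t) f - lo (cycles t) f = a} (2 * m) := by
  have hne' : ∃ i, t i ≠ 4 := by
    obtain ⟨i, j, h⟩ := hne
    by_cases hi : t i = 4
    · exact ⟨j, fun hj => h (hi.trans hj.symm)⟩
    · exact ⟨i, hi⟩
  have hm' : m = max (oo t) 1 := hm
  obtain ⟨i0, -⟩ := id hne'
  haveI : Nonempty (VV t) := ⟨⟨i0, ⟨0, by have := ht i0; omega⟩⟩⟩
  obtain ⟨f, hf, hb⟩ := good ht
  have h1 := hi_lower ht hne' hf
  have h2 := lo_upper ht hne' hf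
  have h3 : hi (cycles t) f ≤ n + 1 + m := ciSup_le fun v => by rw [hn, hm']; exact (hb v).1
  have h4 : n + 1 - m ≤ lo (cycles t) f := le_ciInf fun v => by
    have := (hb v).2
    omega
  have h5 := indep ht ∅ (by simp)
  have h6 : t i0 ≤ ∑ i, t i := Finset.single_le_sum (fun _ _ => Nat.zero_le _) (Finset.mem_univ i0)
  have h7 := ht i0
  refine ⟨by omega, ⟨⟨f, hf, by omega⟩, ?_⟩, ⟨⟨f, hf, by omega⟩, ?_⟩, ⟨⟨f, hf, by omega⟩, ?_⟩⟩
  · rintro a ⟨g, hg, rfl⟩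
    have := hi_lower ht hne' hg
    omega
  · rintro a ⟨g, hg, rfl⟩
    have := lo_upper ht hne' hg
    omega
  · rintro a ⟨g, hg, rfl⟩
    have := hi_lower ht hne' hg
    have := lo_upper ht hne' hg
    omega

end Pool.Agent.Results.MP_af65a2_co.Formula
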